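import Mathlib

set_option autoImplicit false

namespace Pool.Agent.Results.MP_b47c0e_co.ExponentLinear

open Finset

/-- Penalised minimisation of a set function with values in `[0,1]`. -/
theorem tight {V : Type*} [DecidableEq V] (d : Finset V → ℝ) (h0 : ∀ S, 0 ≤ d S)
    (h1 : ∀ S, d S ≤ 1) (κ : ℝ) (hκ : 0 < κ) (W0 : Finset V) (hW0 : W0.Nonempty) :
    ∃ W, W ⊆ W0 ∧ W.Nonempty ∧
      (∀ S, S ⊆ W → S.Nonempty →
        d W - κ * (Real.log W.card - Real.log S.card) ≤ d S) ∧
      Real.log W0.card - Real.log W.card ≤ 1 / κ := by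
  classical
  obtain ⟨W, hW, hmin⟩ := Finset.exists_min_image (W0.powerset.filter (·.Nonempty))
    (fun S => d S - κ * Real.log S.card) ⟨W0, by simp [hW0]⟩
  simp only [mem_filter, mem_powerset] at hW hmin
  refine ⟨W, hW.1, hW.2, ?_, ?_⟩
  · intro S hS hne
    have := hmin S ⟨hS.trans hW.1, hne⟩
    nlinarith
  · have := hmin W0 ⟨subset_refl _, hW0⟩
    rw [le_div_iff₀ hκ]
    nlinarith [h0 W, h1 W0]

theorem expand {V : Type*} [DecidableEq V] (k : V → V → ℝ) (hsymm : ∀ x y, k x y = k y x)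
    (W : Finset V) (z : V) (hz : z ∈ W) (g : V → ℝ) :
    ∑ x ∈ W, ∑ y ∈ W, g x * g y * k x y =
      k z z * g z ^ 2 + 2 * g z * (∑ y ∈ W.erase z, g y * k z y) +
        ∑ x ∈ W.erase z, ∑ y ∈ W.erase z, g x * g y * k x y := by
  rw [← Finset.add_sum_erase _ _ hz, ← Finset.add_sum_erase _ _ hz]
  have h1 : ∑ y ∈ W.erase z, g z * g y * k z y = g z * ∑ y ∈ W.erase z, g y * k z y := by
    rw [mul_sum]; exact sum_congr rfl fun y _ => by ring
  have h2 : ∑ x ∈ W.erase z, ∑ y ∈ W, g x * g y * k x y =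
      g z * (∑ y ∈ W.erase z, g y * k z y) +
        ∑ x ∈ W.erase z, ∑ y ∈ W.erase z, g x * g y * k x y := by
    rw [mul_sum, ← sum_add_distrib]
    refine sum_congr rfl fun x _ => ?_
    rw [← Finset.add_sum_erase _ _ hz, hsymm x z]
    ring
  rw [h1, h2]
  ring

theorem frac {V : Type*} [DecidableEq V] (k : V → V → ℝ) (hk : ∀ x, k x x ≤ 0)
    (hsymm : ∀ x y, k x y = k y x)
    (W : Finset V) (c : ℝ) (h : ∀ S, S ⊆ W → -c ≤ ∑ x ∈ S, ∑ y ∈ S, k x y) (Z : Finset V) :
    Z ⊆ W → ∀ f : V → ℝ, (∀ x ∈ W, 0 ≤ f x ∧ f x ≤ 1) →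
      (∀ x ∈ W, x ∉ Z → f x = 0 ∨ f x = 1) →
      -c ≤ ∑ x ∈ W, ∑ y ∈ W, f x * f y * k x y := by
  classical
  induction Z using Finset.induction_on with
  | empty =>
    intro _ f hf hf01
    have : ∑ x ∈ W, ∑ y ∈ W, f x * f y * k x y =
        ∑ x ∈ W.filter (fun x => f x = 1), ∑ y ∈ W.filter (fun x => f x = 1), k x y := by
      rw [sum_filter]
      apply sum_congr rfl
      intro x hx
      split_ifs with h1
      · rw [sum_filter]
        apply sum_congr rfl
        intro y hy
        split_ifs with h2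
        · simp [h1, h2]
        · have := (hf01 y hy (by simp)).resolve_right h2
          simp [this]
      · have := (hf01 x hx (by simp)).resolve_right h1
        simp [this]
    rw [this]
    exact h _ (filter_subset _ _)
  | insert z Z hz ih =>
    intro hZ f hf hf01
    have hzW : z ∈ W := hZ (mem_insert_self _ _)
    have hZW : Z ⊆ W := (subset_insert _ _).trans hZ
    have key : ∀ t : ℝ, (t = 0 ∨ t = 1) →
        -c ≤ k z z * t ^ 2 + 2 * t * (∑ y ∈ W.erase z, f y * k z y) +
        ∑ x ∈ W.erase z, ∑ y ∈ W.erase z, f x * f y * k x y := by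
      intro t ht
      have h1 := ih hZW (Function.update f z t) (by
        intro x hx
        by_cases hxz : x = z
        · subst hxz
          rcases ht with rfl | rfl <;> simp
        · simpa [Function.update_of_ne hxz] using hf x hx) (by
        intro x hx hxZ
        by_cases hxz : x = z
        · subst hxz
          rcases ht with rfl | rfl <;> simp
        · simpa [Function.update_of_ne hxz] using hf01 x hx (by simp [hxz, hxZ]))
      rw [expand k hsymm W z hzW] at h1
      have e1 : ∑ y ∈ W.erase z, Function.update f z t y * k z y =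
          ∑ y ∈ W.erase z, f y * k z y := by
        refine sum_congr rfl fun y hy => ?_
        rw [Function.update_of_ne (ne_of_mem_erase hy)]
      have e2 : ∑ x ∈ W.erase z, ∑ y ∈ W.erase z,
            Function.update f z t x * Function.update f z t y * k x y =
          ∑ x ∈ W.erase z, ∑ y ∈ W.erase z, f x * f y * k x y := by
        refine sum_congr rfl fun x hx => sum_congr rfl fun y hy => ?_
        rw [Function.update_of_ne (ne_of_mem_erase hy), Function.update_of_ne (ne_of_mem_erase hx)]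
      rw [e1, e2, Function.update_self] at h1
      exact h1
    rw [expand k hsymm W z hzW]
    have k0 := key 0 (Or.inl rfl)
    have k1 := key 1 (Or.inr rfl)
    obtain ⟨ha, hb⟩ := hf z hzW
    have hkz := hk z
    set b := ∑ y ∈ W.erase z, f y * k z y
    set r := ∑ x ∈ W.erase z, ∑ y ∈ W.erase z, f x * f y * k x y
    nlinarith [mul_nonneg ha (sub_nonneg.2 hb), mul_nonneg (neg_nonneg.2 hkz)
      (mul_nonneg ha (sub_nonneg.2 hb)), mul_le_mul_of_nonneg_left k1 ha,
      mul_le_mul_of_nonneg_left k0 (sub_nonneg.2 hb)]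

theorem psd {V : Type*} [DecidableEq V] (k : V → V → ℝ) (hk : ∀ x, k x x ≤ 0)
    (hsymm : ∀ x y, k x y = k y x)
    (W : Finset V) (c : ℝ) (h : ∀ S, S ⊆ W → -c ≤ ∑ x ∈ S, ∑ y ∈ S, k x y)
    (h0 : ∑ x ∈ W, ∑ y ∈ W, k x y = 0) (g : V → ℝ) (hg : ∀ x ∈ W, |g x| ≤ 1) :
    -(4 * c) ≤ ∑ x ∈ W, ∑ y ∈ W, g x * g y * k x y := by
  have h1 := frac k hk hsymm W c h W (subset_refl _) (fun x => (1 + g x) / 2)
    (fun x hx => by
      have := abs_le.1 (hg x hx)
      constructor <;> linarith) (fun x hx hx' => absurd hx hx')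
  have h2 := frac k hk hsymm W c h W (subset_refl _) (fun x => (1 - g x) / 2)
    (fun x hx => by
      have := abs_le.1 (hg x hx)
      constructor <;> linarith) (fun x hx hx' => absurd hx hx')
  have h3 : ∑ x ∈ W, ∑ y ∈ W, (1 + g x) / 2 * ((1 + g y) / 2) * k x y +
      ∑ x ∈ W, ∑ y ∈ W, (1 - g x) / 2 * ((1 - g y) / 2) * k x y =
      1 / 2 * (∑ x ∈ W, ∑ y ∈ W, k x y) + 1 / 2 * ∑ x ∈ W, ∑ y ∈ W, g x * g y * k x y := by
    rw [mul_sum, mul_sum, ← sum_add_distrib, ← sum_add_distrib]
    refine sum_congr rfl fun x _ => ?_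
    rw [mul_sum, mul_sum, ← sum_add_distrib, ← sum_add_distrib]
    refine sum_congr rfl fun y _ => ?_
    ring
  rw [h0] at h3
  linarith


section graph

set_option linter.unusedSectionVars false

variable {V : Type*} [Fintype V] [DecidableEq V] (G : SimpleGraph V) [DecidableRel G.Adj]

/-- adjacency indicator -/
def a (x y : V) : ℝ := if G.Adj x y then 1 else 0

theorem a_symm (x y : V) : a G x y = a G y x := by
  unfold a; simp [G.adj_comm]

theorem a_self (x : V) : a G x x = 0 := by simp [a]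

theorem a_nonneg (x y : V) : 0 ≤ a G x y := by unfold a; split_ifs <;> norm_num

theorem a_le_one (x y : V) : a G x y ≤ 1 := by unfold a; split_ifs <;> norm_num

/-- edge density as a real -/
noncomputable def D (S T : Finset V) : ℝ := (G.edgeDensity S T : ℝ)

theorem D_nonneg (S T : Finset V) : 0 ≤ D G S T := by
  unfold D; exact_mod_cast G.edgeDensity_nonneg S T

theorem D_le_one (S T : Finset V) : D G S T ≤ 1 := by
  unfold D; exact_mod_cast G.edgeDensity_le_one S T

theorem D_comm (S T : Finset V) : D G S T = D G T S := by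
  unfold D; rw [G.edgeDensity_comm]

theorem D_mul (S T : Finset V) (hS : S.Nonempty) (hT : T.Nonempty) :
    ∑ x ∈ S, ∑ y ∈ T, a G x y = D G S T * (S.card * T.card) := by
  have h : ∑ x ∈ S, ∑ y ∈ T, a G x y = ((G.interedges S T).card : ℝ) := by
    rw [SimpleGraph.interedges_def, ← sum_product', card_filter]
    push_cast
    refine sum_congr rfl fun x _ => ?_
    unfold a
    rfl
  have hs : (S.card : ℝ) ≠ 0 := by exact_mod_cast hS.card_pos.ne'
  have ht : (T.card : ℝ) ≠ 0 := by exact_mod_cast hT.card_pos.ne'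
  rw [h]
  unfold D
  rw [SimpleGraph.edgeDensity_def]
  push_cast
  field_simp

/-- the near positive semidefiniteness of the adjacency form on a penalised minimiser -/
theorem near_psd (κ : ℝ) (hκ : 0 < κ) (W : Finset V) (hW : W.Nonempty)
    (hmin : ∀ S, S ⊆ W → S.Nonempty →
        D G W W - κ * (Real.log W.card - Real.log S.card) ≤ D G S S)
    (X : Finset V) (hX : X ⊆ W) (g : V → ℝ) (hg : ∀ x ∈ X, |g x| ≤ 1)
    (hg0 : ∑ x ∈ X, g x = 0) :
    -(κ * (W.card : ℝ) ^ 2) ≤ ∑ x ∈ X, ∑ y ∈ X, g x * g y * a G x y := by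
  classical
  set m := D G W W with hm
  have hm0 : 0 ≤ m := D_nonneg G W W
  have hWc : (0 : ℝ) < W.card := by exact_mod_cast hW.card_pos
  have hsum : ∀ S : Finset V, ∑ x ∈ S, ∑ y ∈ S, (a G x y - m) =
      ∑ x ∈ S, ∑ y ∈ S, a G x y - m * (S.card : ℝ) ^ 2 := by
    intro S
    simp only [sum_sub_distrib, sum_const, nsmul_eq_mul]
    ring
  have hlow : ∀ S, S ⊆ W → -(κ / 4 * (W.card : ℝ) ^ 2) ≤ ∑ x ∈ S, ∑ y ∈ S, (a G x y - m) := by
    intro S hS
    rcases S.eq_empty_or_nonempty with rfl | hne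
    · simp; positivity
    have hSc : (0 : ℝ) < S.card := by exact_mod_cast hne.card_pos
    rw [hsum, D_mul G S S hne hne]
    have h1 := hmin S hS hne
    have hlog : Real.log W.card - Real.log S.card ≤ W.card / S.card - 1 := by
      rw [← Real.log_div hWc.ne' hSc.ne']
      exact Real.log_le_sub_one_of_pos (by positivity)
    have h2 : m - κ * (W.card / S.card - 1) ≤ D G S S := by
      nlinarith
    have h3 : (m - κ * (W.card / S.card - 1)) * ((S.card : ℝ) * S.card) ≤
        D G S S * ((S.card : ℝ) * S.card) :=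
      mul_le_mul_of_nonneg_right h2 (by positivity)
    have h4 : (m - κ * (W.card / S.card - 1)) * ((S.card : ℝ) * S.card) =
        m * (S.card : ℝ) ^ 2 - κ * (W.card * S.card - (S.card : ℝ) ^ 2) := by
      field_simp
    nlinarith [sq_nonneg ((W.card : ℝ) - 2 * S.card)]
  have h0 : ∑ x ∈ W, ∑ y ∈ W, (a G x y - m) = 0 := by
    rw [hsum, D_mul G W W hW hW, ← hm]; ring
  have key := psd (fun x y => a G x y - m) (fun x => by simp [a_self, hm0])
    (fun x y => by simp only [a_symm G x y]) W _ hlow h0 (fun x => if x ∈ X then g x else 0)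
    (fun x _ => by
      by_cases hx : x ∈ X
      · simpa [hx] using hg x hx
      · simp [hx])
  have e1 : ∑ x ∈ W, ∑ y ∈ W, (if x ∈ X then g x else 0) * (if y ∈ X then g y else 0) *
      (a G x y - m) = ∑ x ∈ X, ∑ y ∈ X, g x * g y * (a G x y - m) := by
    rw [← sum_subset hX (fun x _ hx => by simp [hx])]
    refine sum_congr rfl fun x hx => ?_
    rw [← sum_subset hX (fun y _ hy => by simp [hy])]
    refine sum_congr rfl fun y hy => ?_
    simp [hx, hy]
  have e2 : ∑ x ∈ X, ∑ y ∈ X, g x * g y * (a G x y - m) =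
      ∑ x ∈ X, ∑ y ∈ X, g x * g y * a G x y - m * (∑ x ∈ X, g x) * (∑ y ∈ X, g y) := by
    rw [mul_assoc, sum_mul_sum, mul_sum, ← sum_sub_distrib]
    refine sum_congr rfl fun x _ => ?_
    rw [mul_sum, ← sum_sub_distrib]
    refine sum_congr rfl fun y _ => ?_
    ring
  rw [e1, e2, hg0] at key
  linarith

/-- normalised indicator minus uniform -/
noncomputable def psi (X A : Finset V) (x : V) : ℝ :=
  (if x ∈ A then 1 / (A.card : ℝ) else 0) - 1 / (X.card : ℝ)

theorem sum_psi (X A : Finset V) (hA : A ⊆ X) (hne : A.Nonempty) :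
    ∑ x ∈ X, psi X A x = 0 := by
  have hAc : (A.card : ℝ) ≠ 0 := by exact_mod_cast hne.card_pos.ne'
  have hXc : (X.card : ℝ) ≠ 0 := by exact_mod_cast (hne.mono hA).card_pos.ne'
  unfold psi
  rw [sum_sub_distrib, sum_ite_mem, inter_eq_right.2 hA]
  simp only [sum_const, nsmul_eq_mul]
  field_simp
  simp

theorem sum_psi_psi (X A B : Finset V) (hA : A ⊆ X) (hB : B ⊆ X) (hAn : A.Nonempty)
    (hBn : B.Nonempty) :
    ∑ x ∈ X, ∑ y ∈ X, psi X A x * psi X B y * a G x y =
      D G A B - D G A X - D G X B + D G X X := by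
  have hXn : X.Nonempty := hAn.mono hA
  have hAc : (A.card : ℝ) ≠ 0 := by exact_mod_cast hAn.card_pos.ne'
  have hBc : (B.card : ℝ) ≠ 0 := by exact_mod_cast hBn.card_pos.ne'
  have hXc : (X.card : ℝ) ≠ 0 := by exact_mod_cast hXn.card_pos.ne'
  have e : ∀ x y, psi X A x * psi X B y * a G x y =
      (if x ∈ A then (if y ∈ B then 1 / (A.card : ℝ) * (1 / (B.card : ℝ)) * a G x y else 0) else 0)
      - (if x ∈ A then 1 / (A.card : ℝ) * (1 / (X.card : ℝ)) * a G x y else 0)
      - (if y ∈ B then 1 / (X.card : ℝ) * (1 / (B.card : ℝ)) * a G x y else 0)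
      + 1 / (X.card : ℝ) * (1 / (X.card : ℝ)) * a G x y := by
    intro x y
    unfold psi
    split_ifs <;> ring
  simp only [e, sum_add_distrib, sum_sub_distrib]
  have s1 : ∑ x ∈ X, ∑ y ∈ X, (if x ∈ A then (if y ∈ B then
      1 / (A.card : ℝ) * (1 / (B.card : ℝ)) * a G x y else 0) else 0) = D G A B := by
    have : ∀ x, ∑ y ∈ X, (if x ∈ A then (if y ∈ B then
      1 / (A.card : ℝ) * (1 / (B.card : ℝ)) * a G x y else 0) else 0) =
      if x ∈ A then 1 / (A.card : ℝ) * (1 / (B.card : ℝ)) * ∑ y ∈ B, a G x y else 0 := by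
      intro x
      split_ifs
      · rw [sum_ite_mem, inter_eq_right.2 hB, mul_sum]
      · simp
    simp only [this]
    rw [sum_ite_mem, inter_eq_right.2 hA, ← mul_sum, D_mul G A B hAn hBn]
    field_simp
  have s2 : ∑ x ∈ X, ∑ y ∈ X, (if x ∈ A then 1 / (A.card : ℝ) * (1 / (X.card : ℝ)) * a G x y
      else 0) = D G A X := by
    have : ∀ x, ∑ y ∈ X, (if x ∈ A then 1 / (A.card : ℝ) * (1 / (X.card : ℝ)) * a G x y
      else 0) = if x ∈ A then 1 / (A.card : ℝ) * (1 / (X.card : ℝ)) * ∑ y ∈ X, a G x y else 0 := by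
      intro x
      split_ifs
      · rw [mul_sum]
      · simp
    simp only [this]
    rw [sum_ite_mem, inter_eq_right.2 hA, ← mul_sum, D_mul G A X hAn hXn]
    field_simp
  have s3 : ∑ x ∈ X, ∑ y ∈ X, (if y ∈ B then 1 / (X.card : ℝ) * (1 / (B.card : ℝ)) * a G x y
      else 0) = D G X B := by
    have : ∀ x, ∑ y ∈ X, (if y ∈ B then 1 / (X.card : ℝ) * (1 / (B.card : ℝ)) * a G x y
      else 0) = 1 / (X.card : ℝ) * (1 / (B.card : ℝ)) * ∑ y ∈ B, a G x y := by
      intro x
      rw [sum_ite_mem, inter_eq_right.2 hB, mul_sum]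
    simp only [this]
    rw [← mul_sum, D_mul G X B hXn hBn]
    field_simp
  have s4 : ∑ x ∈ X, ∑ y ∈ X, 1 / (X.card : ℝ) * (1 / (X.card : ℝ)) * a G x y = D G X X := by
    simp only [← mul_sum]
    rw [D_mul G X X hXn hXn]
    field_simp
  rw [s1, s2, s3, s4]

/-- splitting identity `2 e(A,X) = e(X,X) + e(A,A) - e(X∖A,X∖A)` in density form. -/
theorem split_identity (X A : Finset V) (hA : A ⊆ X) (hAn : A.Nonempty)
    (hB : (X \ A).Nonempty) :
    2 * (D G A X * (A.card * X.card)) = D G X X * (X.card * X.card) +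
      D G A A * (A.card * A.card) - D G (X \ A) (X \ A) * ((X \ A).card * (X \ A).card) := by
  have hXn : X.Nonempty := hAn.mono hA
  rw [← D_mul G A X hAn hXn, ← D_mul G X X hXn hXn, ← D_mul G A A hAn hAn,
    ← D_mul G (X \ A) (X \ A) hB hB]
  have h1 : ∀ f : V → ℝ, ∑ x ∈ X, f x = ∑ x ∈ A, f x + ∑ x ∈ X \ A, f x := by
    intro f
    rw [add_comm, sum_sdiff hA]
  have h2 : ∑ x ∈ A, ∑ y ∈ X \ A, a G x y = ∑ x ∈ X \ A, ∑ y ∈ A, a G x y := by
    rw [sum_comm]
    exact sum_congr rfl fun x _ => sum_congr rfl fun y _ => a_symm G _ _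
  have h3 : ∑ x ∈ A, ∑ y ∈ X, a G x y =
      ∑ x ∈ A, ∑ y ∈ A, a G x y + ∑ x ∈ A, ∑ y ∈ X \ A, a G x y := by
    rw [← sum_add_distrib]
    exact sum_congr rfl fun x _ => h1 _
  have h4 : ∑ x ∈ X \ A, ∑ y ∈ X, a G x y =
      ∑ x ∈ X \ A, ∑ y ∈ A, a G x y + ∑ x ∈ X \ A, ∑ y ∈ X \ A, a G x y := by
    rw [← sum_add_distrib]
    exact sum_congr rfl fun x _ => h1 _
  rw [h1 (fun x => ∑ y ∈ X, a G x y), h3, h4, h2]
  ring

theorem abs_psi_le (X A : Finset V) (hA : A ⊆ X) (hne : A.Nonempty) (x : V) :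
    |psi X A x| ≤ 1 / (A.card : ℝ) := by
  have hAc : (0 : ℝ) < A.card := by exact_mod_cast hne.card_pos
  have hXc : (0 : ℝ) < X.card := by exact_mod_cast (hne.mono hA).card_pos
  have hle : (A.card : ℝ) ≤ X.card := by exact_mod_cast card_le_card hA
  have h1 : 1 / (X.card : ℝ) ≤ 1 / (A.card : ℝ) := one_div_le_one_div_of_le hAc hle
  have h2 : 0 < 1 / (X.card : ℝ) := by positivity
  have h3 : 0 < 1 / (A.card : ℝ) := by positivity
  unfold psi
  split_ifs
  · rw [abs_of_nonneg (by linarith)]; linarith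
  · rw [zero_sub, abs_neg, abs_of_pos h2]; exact h1

/-- Deterministic core: a near positive semidefinite, upper-tight set is uniform. -/
theorem core (ε lam κ : ℝ) (h0 : 0 < ε) (h1 : ε < 1 / 2)
    (hlam : lam * (Real.log (1 / ε) + 1) = ε / 8) (hlam0 : 0 < lam)
    (hκ : 0 < κ) (hκ1 : κ * Real.exp (2 / lam) ≤ ε ^ 4 / 1024)
    (W : Finset V) (hW : W.Nonempty)
    (hmin : ∀ S, S ⊆ W → S.Nonempty →
        D G W W - κ * (Real.log W.card - Real.log S.card) ≤ D G S S)
    (X : Finset V) (hXW : X ⊆ W) (hX : X.Nonempty)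
    (hmax : ∀ S, S ⊆ X → S.Nonempty →
        D G S S ≤ D G X X + lam * (Real.log X.card - Real.log S.card))
    (hlog : Real.log W.card - Real.log X.card ≤ 1 / lam) :
    G.IsUniform ε X X := by
  have hXc : (0 : ℝ) < X.card := by exact_mod_cast hX.card_pos
  have hWc : (0 : ℝ) < W.card := by exact_mod_cast hW.card_pos
  set L := Real.log (1 / ε) with hL
  have hLpos : 0 < L := Real.log_pos (by rw [lt_div_iff₀ h0]; linarith)
  set s := ε * X.card with hs
  have hspos : 0 < s := by positivity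
  set E := 4 * (κ * (W.card : ℝ) ^ 2) / s ^ 2 with hE
  have hE0 : 0 ≤ E := by positivity
  have hWX : (W.card : ℝ) ≤ X.card * Real.exp (1 / lam) := by
    have : Real.log W.card ≤ Real.log (X.card * Real.exp (1 / lam)) := by
      rw [Real.log_mul hXc.ne' (Real.exp_pos _).ne', Real.log_exp]; linarith
    exact (Real.log_le_log_iff hWc (by positivity)).1 this
  have hE1 : E ≤ ε ^ 2 / 256 := by
    rw [hE, div_le_iff₀ (by positivity)]
    have h2 : (W.card : ℝ) ^ 2 ≤ (X.card : ℝ) ^ 2 * Real.exp (2 / lam) := by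
      have : (W.card : ℝ) ^ 2 ≤ (X.card * Real.exp (1 / lam)) ^ 2 :=
        pow_le_pow_left₀ hWc.le hWX 2
      rw [mul_pow, ← Real.exp_nat_mul] at this
      convert this using 3
      push_cast; ring
    have h3 : κ * (W.card : ℝ) ^ 2 ≤ (X.card : ℝ) ^ 2 * (ε ^ 4 / 1024) := by
      calc κ * (W.card : ℝ) ^ 2 ≤ κ * ((X.card : ℝ) ^ 2 * Real.exp (2 / lam)) :=
            mul_le_mul_of_nonneg_left h2 hκ.le
        _ = (X.card : ℝ) ^ 2 * (κ * Real.exp (2 / lam)) := by ring
        _ ≤ _ := mul_le_mul_of_nonneg_left hκ1 (by positivity)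
    rw [hs]
    nlinarith
  have hEs : κ * (W.card : ℝ) ^ 2 = E / 4 * s ^ 2 := by
    rw [hE]; field_simp
  clear hE
  clear_value E
  set p := D G X X with hp
  have hp0 : 0 ≤ p := D_nonneg G X X
  have hp1 : p ≤ 1 := D_le_one G X X
  -- near psd on single sets
  have single : ∀ A, A ⊆ X → s ≤ A.card → -(E / 4) ≤ D G A A - 2 * D G A X + p := by
    intro A hA hAs
    have hAc : (0 : ℝ) < A.card := lt_of_lt_of_le hspos hAs
    have hAn : A.Nonempty := by rw [← card_pos]; exact_mod_cast hAc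
    have key := near_psd G κ hκ W hW hmin X hXW (fun x => s * psi X A x)
      (fun x _ => by
        rw [abs_mul, abs_of_pos hspos]
        calc s * |psi X A x| ≤ s * (1 / A.card) :=
              mul_le_mul_of_nonneg_left (abs_psi_le X A hA hAn x) hspos.le
          _ ≤ 1 := by rw [mul_one_div, div_le_one hAc]; exact hAs)
      (by rw [← mul_sum, sum_psi X A hA hAn, mul_zero])
    have e : ∑ x ∈ X, ∑ y ∈ X, (s * psi X A x) * (s * psi X A y) * a G x y =
        s ^ 2 * (D G A A - 2 * D G A X + p) := by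
      have := sum_psi_psi G X A A hA hA hAn hAn
      rw [D_comm G X A] at this
      have h5 : D G A A - 2 * D G A X + p = ∑ x ∈ X, ∑ y ∈ X, psi X A x * psi X A y * a G x y := by
        rw [this]; ring
      rw [h5, mul_sum]
      refine sum_congr rfl fun x _ => ?_
      rw [mul_sum]
      refine sum_congr rfl fun y _ => ?_
      ring
    rw [e, hEs] at key
    have hs2 : 0 < s ^ 2 := by positivity
    by_contra hcon
    push Not at hcon
    nlinarith
  -- near psd on pairs
  have pair : ∀ A B, A ⊆ X → B ⊆ X → s ≤ A.card → s ≤ B.card → ∀ σ : ℝ, (σ = 1 ∨ σ = -1) →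
      -E ≤ (D G A A - 2 * D G A X + p) + 2 * σ * (D G A B - D G A X - D G B X + p) +
        (D G B B - 2 * D G B X + p) := by
    intro A B hA hB hAs hBs σ hσ
    have hAc : (0 : ℝ) < A.card := lt_of_lt_of_le hspos hAs
    have hAn : A.Nonempty := by rw [← card_pos]; exact_mod_cast hAc
    have hBc : (0 : ℝ) < B.card := lt_of_lt_of_le hspos hBs
    have hBn : B.Nonempty := by rw [← card_pos]; exact_mod_cast hBc
    have hσ1 : |σ| = 1 := by rcases hσ with rfl | rfl <;> simp
    have hσ2 : σ ^ 2 = 1 := by rcases hσ with rfl | rfl <;> norm_num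
    have key := near_psd G κ hκ W hW hmin X hXW (fun x => s / 2 * (psi X A x + σ * psi X B x))
      (fun x _ => by
        rw [abs_mul, abs_of_pos (by positivity : 0 < s / 2)]
        have h6 : |psi X A x + σ * psi X B x| ≤ 1 / s + 1 / s := by
          refine (abs_add_le _ _).trans (add_le_add ?_ ?_)
          · exact (abs_psi_le X A hA hAn x).trans (one_div_le_one_div_of_le hspos hAs)
          · rw [abs_mul, hσ1, one_mul]
            exact (abs_psi_le X B hB hBn x).trans (one_div_le_one_div_of_le hspos hBs)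
        calc s / 2 * |psi X A x + σ * psi X B x| ≤ s / 2 * (1 / s + 1 / s) :=
              mul_le_mul_of_nonneg_left h6 (by positivity)
          _ = 1 := by field_simp; norm_num)
      (by rw [← mul_sum, sum_add_distrib, ← mul_sum, sum_psi X A hA hAn, sum_psi X B hB hBn]; simp)
    have e : ∑ x ∈ X, ∑ y ∈ X, (s / 2 * (psi X A x + σ * psi X B x)) *
        (s / 2 * (psi X A y + σ * psi X B y)) * a G x y =
        s ^ 2 / 4 * ((D G A A - 2 * D G A X + p) +
          2 * σ * (D G A B - D G A X - D G B X + p) + (D G B B - 2 * D G B X + p)) := by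
      have e1 := sum_psi_psi G X A A hA hA hAn hAn
      have e2 := sum_psi_psi G X A B hA hB hAn hBn
      have e3 := sum_psi_psi G X B A hB hA hBn hAn
      have e4 := sum_psi_psi G X B B hB hB hBn hBn
      rw [D_comm G X A] at e1 e3
      rw [D_comm G X B] at e2 e4
      rw [D_comm G B A] at e3
      have h5 : (D G A A - 2 * D G A X + p) +
          2 * σ * (D G A B - D G A X - D G B X + p) + (D G B B - 2 * D G B X + p) =
          ∑ x ∈ X, ∑ y ∈ X, psi X A x * psi X A y * a G x y
          + σ * ∑ x ∈ X, ∑ y ∈ X, psi X A x * psi X B y * a G x y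
          + σ * ∑ x ∈ X, ∑ y ∈ X, psi X B x * psi X A y * a G x y
          + σ ^ 2 * ∑ x ∈ X, ∑ y ∈ X, psi X B x * psi X B y * a G x y := by
        rw [e1, e2, e3, e4, hσ2]; ring
      rw [h5]
      simp only [mul_sum, ← sum_add_distrib]
      refine sum_congr rfl fun x _ => ?_
      refine sum_congr rfl fun y _ => ?_
      ring
    rw [e, hEs] at key
    have hs2 : 0 < s ^ 2 := by positivity
    by_contra hcon
    push Not at hcon
    nlinarith
  -- upper tightness
  have upper : ∀ A, A ⊆ X → s ≤ A.card → D G A A ≤ p + lam * L := by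
    intro A hA hAs
    have hAc : (0 : ℝ) < A.card := lt_of_lt_of_le hspos hAs
    have hAn : A.Nonempty := by rw [← card_pos]; exact_mod_cast hAc
    have h7 := hmax A hA hAn
    have h8 : Real.log X.card - Real.log A.card ≤ L := by
      rw [hL, ← Real.log_div hXc.ne' hAc.ne']
      apply Real.log_le_log (by positivity)
      rw [div_le_div_iff₀ hAc h0]
      linarith [hs ▸ hAs]
    nlinarith
  -- first order conditions
  have fo_up : ∀ A, A ⊆ X → s ≤ A.card → D G A X ≤ p + lam * L / 2 + E / 8 := by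
    intro A hA hAs
    have := single A hA hAs
    have := upper A hA hAs
    linarith
  have fo_low : ∀ A, A ⊆ X → s ≤ A.card → p - lam / 2 - ε / 16 ≤ D G A X := by
    intro A hA hAs
    have hAc : (0 : ℝ) < A.card := lt_of_lt_of_le hspos hAs
    have hAn : A.Nonempty := by rw [← card_pos]; exact_mod_cast hAc
    rcases (X \ A).eq_empty_or_nonempty with hB | hB
    · have : A = X := subset_antisymm hA (sdiff_eq_empty_iff_subset.1 hB)
      rw [this]; linarith
    have hid := split_identity G X A hA hAn hB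
    have hcard : ((X \ A).card : ℝ) = X.card - A.card := by
      rw [card_sdiff_of_subset hA, Nat.cast_sub (card_le_card hA)]
    have hBc : (0 : ℝ) < (X \ A).card := by exact_mod_cast hB.card_pos
    set x := D G A X with hx
    set θ := (A.card : ℝ) / X.card with hθ
    set θ' := ((X \ A).card : ℝ) / X.card with hθ'
    have hθ0 : 0 < θ := by positivity
    have hθ'0 : 0 < θ' := by positivity
    have hsum : θ + θ' = 1 := by
      rw [hθ, hθ', hcard]; field_simp; ring
    have hid2 : 2 * θ * x = p + θ ^ 2 * D G A A - θ' ^ 2 * D G (X \ A) (X \ A) := by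
      have e1 : 2 * θ * x = 2 * (x * (A.card * X.card)) / (X.card : ℝ) ^ 2 := by
        rw [hθ]; field_simp
      rw [e1, hid, hθ, hθ', ← hp]
      field_simp
    by_cases hsmall : θ' ≤ ε / 16
    · -- trivial bound
      have hx0 : 0 ≤ x := D_nonneg G A X
      have hDA : 0 ≤ D G A A := D_nonneg G A A
      have hDB : D G (X \ A) (X \ A) ≤ 1 := D_le_one G _ _
      -- e(A,X) >= e(X,X) - e(B,X)
      have hAB : D G A X * (A.card * X.card) = D G X X * (X.card * X.card) -
          D G (X \ A) X * ((X \ A).card * X.card) := by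
        rw [← D_mul G A X hAn hX, ← D_mul G X X hX hX, ← D_mul G (X \ A) X hB hX]
        rw [← sum_sdiff hA]; ring
      have hBX : D G (X \ A) X ≤ 1 := D_le_one G _ _
      have hAB2 : θ * x = p - θ' * D G (X \ A) X := by
        have e1 : θ * x = (x * (A.card * X.card)) / (X.card : ℝ) ^ 2 := by
          rw [hθ]; field_simp
        rw [e1, hAB, hθ', ← hp]
        field_simp
      have hx1 : x ≤ 1 := D_le_one G A X
      nlinarith
    · push Not at hsmall
      have hDA := single A hA hAs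
      have hDB := hmax (X \ A) sdiff_subset hB
      have hlogB : Real.log X.card - Real.log (X \ A).card ≤ 1 / θ' - 1 := by
        rw [← Real.log_div hXc.ne' hBc.ne']
        have : (X.card : ℝ) / (X \ A).card = 1 / θ' := by rw [hθ']; field_simp
        rw [this]
        exact Real.log_le_sub_one_of_pos (by positivity)
      have hDB2 : θ' ^ 2 * D G (X \ A) (X \ A) ≤ θ' ^ 2 * p + lam * (θ' * θ) := by
        have h9 : D G (X \ A) (X \ A) ≤ p + lam * (1 / θ' - 1) := by nlinarith
        have h10 : θ' ^ 2 * D G (X \ A) (X \ A) ≤ θ' ^ 2 * (p + lam * (1 / θ' - 1)) :=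
          mul_le_mul_of_nonneg_left h9 (by positivity)
        have h11 : θ' ^ 2 * (p + lam * (1 / θ' - 1)) = θ' ^ 2 * p + lam * (θ' * (1 - θ')) := by
          field_simp
        have h12 : 1 - θ' = θ := by linarith
        rw [h11, h12] at h10
        exact h10
      have hDA2 : θ ^ 2 * (2 * x - p - E / 4) ≤ θ ^ 2 * D G A A :=
        mul_le_mul_of_nonneg_left (by linarith) (by positivity)
      have hmain : 2 * θ * θ' * p - θ ^ 2 * (E / 4) - lam * (θ' * θ) ≤ 2 * θ * θ' * x := by
        have e1 : 2 * θ * θ' * x = 2 * θ * x - 2 * θ ^ 2 * x := by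
          rw [show θ' = 1 - θ by linarith]; ring
        have e2 : 2 * θ * θ' * p = p - θ ^ 2 * p - θ' ^ 2 * p := by
          rw [show θ' = 1 - θ by linarith]; ring
        rw [e1, e2, hid2]
        linarith
      have hmain2 : 2 * θ' * p - θ * (E / 4) - lam * θ' ≤ 2 * θ' * x := by
        by_contra hcon
        push Not at hcon
        nlinarith
      have hθ1 : θ ≤ 1 := by linarith
      have hEθ : θ * (E / 4) ≤ ε / 8 * θ' := by
        have : θ * (E / 4) ≤ E / 4 := by nlinarith
        nlinarith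
      by_contra hcon
      push Not at hcon
      nlinarith
  -- conclusion
  have hLe : lam * L + lam = ε / 8 := by rw [← hlam]; ring
  have hLL : 0 < lam * L := by positivity
  have hEs2 : E ≤ ε / 256 := by nlinarith
  intro A hA B hB hA' hB'
  have hAs : s ≤ A.card := by rw [hs]; linarith
  have hBs : s ≤ B.card := by rw [hs]; linarith
  have hp1 := pair A B hA hB hAs hBs 1 (Or.inl rfl)
  have hp2 := pair A B hA hB hAs hBs (-1) (Or.inr rfl)
  have u1 := upper A hA hAs
  have u2 := upper B hB hBs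
  have f1 := fo_up A hA hAs
  have f2 := fo_up B hB hBs
  have l1 := fo_low A hA hAs
  have l2 := fo_low B hB hBs
  change |D G A B - D G X X| < ε
  rw [← hp, abs_lt]
  constructor <;> linarith

theorem numeric (ε : ℝ) (h0 : 0 < ε) (h1 : ε < 1 / 2) (lam κ : ℝ)
    (hlam : lam = ε / (8 * (Real.log (1 / ε) + 1)))
    (hκ : κ = ε ^ 4 * Real.exp (-(2 / lam)) / 1024) :
    1 / κ + 1 / lam ≤ (1 / ε) ^ (50 / ε) * Real.log 2 := by
  have hy : 2 < 1 / ε := by rw [lt_div_iff₀ h0]; linarith
  set L := Real.log (1 / ε) with hL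
  have hL2 : 0.6931 < L := lt_trans (by linarith [Real.log_two_gt_d9])
    (Real.log_lt_log (by norm_num) hy)
  have hlampos : 0 < lam := by rw [hlam]; positivity
  have e1 : 2 / lam = 16 * (L + 1) / ε := by
    rw [hlam]; field_simp; ring
  have hy0 : 0 < 1 / ε := by positivity
  have e2 : (1 / ε) ^ (50 / ε) = Real.exp (50 * L / ε) := by
    rw [Real.rpow_def_of_pos hy0]; congr 1; ring
  have h3 : Real.exp (2 / lam) ≤ Real.exp (40 * L / ε) := by
    apply Real.exp_le_exp.2
    rw [e1, div_le_div_iff_of_pos_right h0]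
    linarith
  have h4 : 1024 * (1 / ε) ^ 4 ≤ Real.exp (7 * L / ε) := by
    have h5 : (1024 : ℝ) ≤ (1 / ε) ^ 10 := by
      calc (1024 : ℝ) = 2 ^ 10 := by norm_num
        _ ≤ (1 / ε) ^ 10 := pow_le_pow_left₀ (by norm_num) hy.le 10
    calc 1024 * (1 / ε) ^ 4 ≤ (1 / ε) ^ 10 * (1 / ε) ^ 4 :=
          mul_le_mul_of_nonneg_right h5 (by positivity)
      _ = (1 / ε) ^ 14 := by ring
      _ = Real.exp (14 * L) := by
          rw [hL, ← Real.log_rpow hy0, Real.exp_log (by positivity)]
          norm_cast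
      _ ≤ Real.exp (7 * L / ε) := by
          apply Real.exp_le_exp.2
          rw [le_div_iff₀ h0]
          nlinarith
  have h6 : 1 / κ ≤ Real.exp (47 * L / ε) := by
    have e3 : 1 / κ = 1024 * (1 / ε) ^ 4 * Real.exp (2 / lam) := by
      rw [hκ, Real.exp_neg]
      field_simp
    rw [e3]
    calc 1024 * (1 / ε) ^ 4 * Real.exp (2 / lam) ≤
        Real.exp (7 * L / ε) * Real.exp (40 * L / ε) :=
          mul_le_mul h4 h3 (Real.exp_pos _).le (Real.exp_pos _).le
      _ = Real.exp (47 * L / ε) := by rw [← Real.exp_add]; congr 1; ring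
  have h7 : 1 / lam ≤ Real.exp (47 * L / ε) := by
    have h8 : 2 / lam + 1 ≤ Real.exp (2 / lam) := Real.add_one_le_exp _
    have h9 : 1 / lam ≤ 2 / lam := by
      rw [div_le_div_iff_of_pos_right hlampos]; norm_num
    have h10 : Real.exp (40 * L / ε) ≤ Real.exp (47 * L / ε) := by
      apply Real.exp_le_exp.2
      rw [div_le_div_iff_of_pos_right h0]
      linarith
    linarith
  have h11 : 64 ≤ Real.exp (3 * L / ε) := by
    have : (64 : ℝ) ≤ Real.exp (6 * L) := by
      rw [hL, ← Real.log_rpow hy0, Real.exp_log (by positivity)]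
      calc (64 : ℝ) = 2 ^ (6 : ℝ) := by norm_num
        _ ≤ (1 / ε) ^ (6 : ℝ) := Real.rpow_le_rpow (by norm_num) hy.le (by norm_num)
    refine this.trans (Real.exp_le_exp.2 ?_)
    rw [le_div_iff₀ h0]
    nlinarith
  have h12 : Real.exp (50 * L / ε) = Real.exp (47 * L / ε) * Real.exp (3 * L / ε) := by
    rw [← Real.exp_add]; congr 1; ring
  have hlog2 : 0.69 < Real.log 2 := lt_trans (by norm_num) Real.log_two_gt_d9
  rw [e2, h12]
  have h13 : 0 < Real.exp (47 * L / ε) := Real.exp_pos _
  have h14 : 2 ≤ Real.exp (3 * L / ε) * Real.log 2 := by nlinarith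
  calc 1 / κ + 1 / lam ≤ Real.exp (47 * L / ε) * 2 := by linarith
    _ ≤ Real.exp (47 * L / ε) * (Real.exp (3 * L / ε) * Real.log 2) :=
        mul_le_mul_of_nonneg_left h14 h13.le
    _ = _ := by ring

end graph

/-- Every finite graph on a nonempty vertex set has, for every `0 < ε < 1/2`, a nonempty
`ε`-regular (Mathlib: `ε`-uniform with itself) vertex set of size at least
`2 ^ (-(1/ε) ^ (50/ε))` times the number of vertices. -/
theorem result : ∀ ε : ℝ, 0 < ε → ε < 1 / 2 →
    ∀ (V : Type) [Fintype V] [DecidableEq V] [Nonempty V] (G : SimpleGraph V)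
      [DecidableRel G.Adj],
      ∃ U : Finset V, U.Nonempty ∧ G.IsUniform ε U U ∧
        (Fintype.card V : ℝ) * (2 : ℝ) ^ (-((1 / ε) ^ (50 / ε))) ≤ (U.card : ℝ) := by
  intro ε h0 h1 V _ _ _ G _
  set L := Real.log (1 / ε) with hL
  have hy : 2 < 1 / ε := by rw [lt_div_iff₀ h0]; linarith
  have hLpos : 0 < L := Real.log_pos (by linarith)
  obtain ⟨lam, hlam⟩ : ∃ l, l = ε / (8 * (L + 1)) := ⟨_, rfl⟩
  have hlam0 : 0 < lam := by rw [hlam]; positivity
  obtain ⟨κ, hκ⟩ : ∃ k, k = ε ^ 4 * Real.exp (-(2 / lam)) / 1024 := ⟨_, rfl⟩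
  have hκ0 : 0 < κ := by rw [hκ]; positivity
  obtain ⟨W, -, hW, hmin, hWlog⟩ := tight (fun S => D G S S) (fun S => D_nonneg G S S)
    (fun S => D_le_one G S S) κ hκ0 (univ : Finset V) univ_nonempty
  obtain ⟨X, hXW, hX, hmax, hXlog⟩ := tight (fun S => 1 - D G S S)
    (fun S => by linarith [D_le_one G S S])
    (fun S => by linarith [D_nonneg G S S]) lam hlam0 W hW
  refine ⟨X, hX, ?_, ?_⟩
  · refine core G ε lam κ h0 h1 ?_ hlam0 hκ0 ?_ W hW hmin X hXW hX ?_ hXlog
    · rw [hlam, ← hL]; field_simp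
    · rw [hκ, Real.exp_neg]
      apply le_of_eq
      field_simp
    · intro S hS hSn
      have := hmax S hS hSn
      linarith
  · have hnum := numeric ε h0 h1 lam κ hlam hκ
    have hVc : (0 : ℝ) < (univ : Finset V).card := by exact_mod_cast univ_nonempty.card_pos
    have hXc : (0 : ℝ) < X.card := by exact_mod_cast hX.card_pos
    have hfin : Real.log (univ : Finset V).card - (1 / ε) ^ (50 / ε) * Real.log 2 ≤
        Real.log X.card := by linarith
    rw [← Finset.card_univ]
    have h2 : Real.log ((univ : Finset V).card * (2 : ℝ) ^ (-((1 / ε) ^ (50 / ε)))) =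
        Real.log (univ : Finset V).card - (1 / ε) ^ (50 / ε) * Real.log 2 := by
      rw [Real.log_mul hVc.ne' (by positivity), Real.log_rpow (by norm_num)]
      ring
    rw [← h2] at hfin
    exact (Real.log_le_log_iff (by positivity) hXc).1 hfin

end Pool.Agent.Results.MP_b47c0e_co.ExponentLinear
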